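import Mathlib

set_option autoImplicit false

/-!
The complete graph on three vertices is uniquely `{1,2,3}`-weight colourable.
-/

namespace Pool.Agent.Results.MP_9e9a14_co.Triangle

open Finset

/-- The sum at `v` of the weights of the edges containing `v`. -/
noncomputable def vertexSum {V : Type} [Fintype V] (G : SimpleGraph V) (w : G.edgeSet → ℝ)
    (v : V) : ℝ :=
  ∑ᶠ e : G.edgeSet, (Set.indicator {e : G.edgeSet | v ∈ (e : Sym2 V)} w) e

/-- `w` takes its values in `S` and the two ends of each edge have different sums. -/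
def ProperWeighting {V : Type} [Fintype V] (S : Set ℝ) (G : SimpleGraph V)
    (w : G.edgeSet → ℝ) : Prop :=
  (∀ e, w e ∈ S) ∧ ∀ u v, G.Adj u v → vertexSum G w u ≠ vertexSum G w v

/-- Two edge weightings are isomorphic if some automorphism of the graph carries one to the
other. -/
def IsoWeighting {V : Type} (G : SimpleGraph V) (w w' : G.edgeSet → ℝ) : Prop :=
  ∃ φ : G ≃g G, ∀ e : G.edgeSet, w' (φ.mapEdgeSet e) = w e

/-- `G` has a proper `S`-weighting and any two of them are isomorphic. -/
def UniquelyWeightColourable {V : Type} [Fintype V] (S : Set ℝ) (G : SimpleGraph V) : Prop :=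
  (∃ w, ProperWeighting S G w) ∧
    ∀ w w', ProperWeighting S G w → ProperWeighting S G w' → IsoWeighting G w w'

/-- The triangle. -/
abbrev K3 : SimpleGraph (Fin 3) := ⊤

/-- The edge of the triangle opposite to `v`. -/
def opp (v : Fin 3) : K3.edgeSet := ⟨s(v + 1, v + 2), by
  rw [SimpleGraph.mem_edgeSet, SimpleGraph.top_adj]; revert v; decide⟩

lemma opp_inj : Function.Injective opp := by
  intro u v h
  have h1 : s(u + 1, u + 2) = s(v + 1, v + 2) := congrArg Subtype.val h
  revert u v
  have : ∀ u v : Fin 3, s(u + 1, u + 2) = s(v + 1, v + 2) → u = v := by decide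
  intro u v _ h1
  exact this u v h1

lemma opp_surj : Function.Surjective opp := by
  rintro ⟨e, he⟩
  have : ∀ e : Sym2 (Fin 3), ¬ e.IsDiag → ∃ v : Fin 3, s(v + 1, v + 2) = e := by decide
  have hd : ¬ e.IsDiag := K3.not_isDiag_of_mem_edgeSet he
  obtain ⟨v, hv⟩ := this e hd
  exact ⟨v, Subtype.ext hv⟩

/-- Edges of the triangle correspond to vertices. -/
noncomputable def oppEquiv : Fin 3 ≃ K3.edgeSet := Equiv.ofBijective opp ⟨opp_inj, opp_surj⟩

lemma mem_opp (u v : Fin 3) : u ∈ ((opp v : K3.edgeSet) : Sym2 (Fin 3)) ↔ u ≠ v := by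
  unfold opp
  simp only [Sym2.mem_iff]
  revert u v
  decide

lemma vertexSum_eq (w : K3.edgeSet → ℝ) (v : Fin 3) :
    vertexSum K3 w v = (∑ u, w (opp u)) - w (opp v) := by
  classical
  unfold vertexSum
  rw [← finsum_comp_equiv oppEquiv, finsum_eq_sum_of_fintype]
  have h : ∀ u, (Set.indicator {e : K3.edgeSet | v ∈ (e : Sym2 (Fin 3))} w) (oppEquiv u)
      = if v ≠ u then w (opp u) else 0 := by
    intro u
    have : oppEquiv u = opp u := rfl
    rw [this, Set.indicator_apply]
    simp only [Set.mem_setOf_eq, mem_opp]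
  rw [Finset.sum_congr rfl fun u _ => h u]
  rw [eq_sub_iff_add_eq]
  have h2 : ∑ u, w (opp u) = ∑ u, ((if v ≠ u then w (opp u) else 0)
      + (if v = u then w (opp u) else 0)) := by
    refine Finset.sum_congr rfl fun u _ => ?_
    by_cases huv : v = u <;> simp [huv]
  rw [h2, Finset.sum_add_distrib]
  simp

lemma proper_iff (w : K3.edgeSet → ℝ) :
    ProperWeighting {1, 2, 3} K3 w ↔
      (∀ v, w (opp v) ∈ ({1, 2, 3} : Set ℝ)) ∧ Function.Injective fun v => w (opp v) := by
  unfold ProperWeighting
  constructor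
  · rintro ⟨h1, h2⟩
    refine ⟨fun v => h1 _, fun u v huv => ?_⟩
    by_contra hne
    apply h2 u v hne
    rw [vertexSum_eq, vertexSum_eq]
    simp only at huv
    rw [huv]
  · rintro ⟨h1, h2⟩
    constructor
    · intro e
      obtain ⟨v, rfl⟩ := opp_surj e
      exact h1 v
    · intro u v huv h
      rw [vertexSum_eq, vertexSum_eq] at h
      have : w (opp u) = w (opp v) := by linarith
      exact huv (h2 this)

lemma range_eq (f : Fin 3 → ℝ) (h1 : ∀ v, f v ∈ ({1, 2, 3} : Set ℝ))
    (h2 : Function.Injective f) (x : ℝ) (hx : x ∈ ({1, 2, 3} : Set ℝ)) : ∃ v, f v = x := by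
  classical
  have hsub : Finset.univ.image f ⊆ ({1, 2, 3} : Finset ℝ) := by
    intro y hy
    simp only [Finset.mem_image, Finset.mem_univ, true_and] at hy
    obtain ⟨v, rfl⟩ := hy
    have := h1 v
    simpa using this
  have hcard : ({1, 2, 3} : Finset ℝ).card = 3 := by
    rw [Finset.card_insert_of_notMem, Finset.card_insert_of_notMem, Finset.card_singleton]
    · simp only [Finset.mem_singleton]; norm_num
    · simp only [Finset.mem_insert, Finset.mem_singleton]; norm_num
  have hcard2 : (Finset.univ.image f).card = 3 := by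
    rw [Finset.card_image_of_injective _ h2]; simp
  have heq := Finset.eq_of_subset_of_card_le hsub (by rw [hcard, hcard2])
  have hx' : x ∈ ({1, 2, 3} : Finset ℝ) := by simpa using hx
  rw [← heq] at hx'
  simpa using hx'

/-- There is a graph with at least one edge that is uniquely `{1,2,3}`-weight colourable, namely
the triangle. -/
theorem result :
    (∃ u v, K3.Adj u v) ∧ UniquelyWeightColourable ({1, 2, 3} : Set ℝ) K3 := by
  refine ⟨⟨0, 1, by decide⟩, ?_, ?_⟩
  · -- existence
    let w : K3.edgeSet → ℝ := fun e => ((oppEquiv.symm e : Fin 3) : ℕ) + 1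
    have hw : ∀ v : Fin 3, w (opp v) = (v : ℕ) + 1 := by
      intro v
      have : oppEquiv.symm (opp v) = v := oppEquiv.symm_apply_apply v
      simp only [w, this]
    refine ⟨w, (proper_iff w).mpr ⟨?_, ?_⟩⟩
    · intro v
      rw [hw]
      fin_cases v <;> norm_num
    · intro u v huv
      simp only [hw] at huv
      have : ((u : ℕ) : ℝ) = ((v : ℕ) : ℝ) := by linarith
      exact Fin.ext (by exact_mod_cast this)
  · intro w w' hw hw'
    rw [proper_iff] at hw hw'
    obtain ⟨h1, h2⟩ := hw
    obtain ⟨h1', h2'⟩ := hw'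
    have hex : ∀ v, ∃ u, w' (opp u) = w (opp v) := fun v =>
      range_eq (fun v => w' (opp v)) h1' h2' _ (h1 v)
    choose f hf using hex
    have hfinj : Function.Injective f := by
      intro u v huv
      apply h2
      simp only
      rw [← hf u, ← hf v, huv]
    have hfbij : Function.Bijective f := Finite.injective_iff_bijective.mp hfinj
    let σ : Equiv.Perm (Fin 3) := Equiv.ofBijective f hfbij
    let φ : K3 ≃g K3 := ⟨σ, by
      intro a b
      simp only [SimpleGraph.top_adj, ne_eq, EmbeddingLike.apply_eq_iff_eq]⟩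
    refine ⟨φ, fun e => ?_⟩
    obtain ⟨v, rfl⟩ := opp_surj e
    rw [← hf v]
    congr 1
    apply Subtype.ext
    have hperm : ∀ (τ : Equiv.Perm (Fin 3)) (v : Fin 3),
        s(τ (v + 1), τ (v + 2)) = s(τ v + 1, τ v + 2) := by decide
    exact hperm σ v

end Pool.Agent.Results.MP_9e9a14_co.Triangle
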